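import Pool.Agent.Helper17.SV.Stmts

set_option autoImplicit false

/-! Module NQ of MP_c38931_co: an abelian normal `q`-subgroup of a solvable group. -/

open Finset Pool.Agent.Helper17.SO
open scoped commutatorElement

namespace Pool.Agent.Helper17.SV

theorem st_NQ : ST_NQ := by
  intro G _ _ hs _
  classical
  obtain ⟨n0, hn0⟩ := hs.solvable
  obtain ⟨D, hDn, hD0, hDab⟩ : ∃ D : Subgroup G, D.Normal ∧ D ≠ ⊥ ∧
      ∀ x ∈ D, ∀ y ∈ D, x * y = y * x := by
    have hex : ∃ n, derivedSeries G n = ⊥ := ⟨n0, hn0⟩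
    have h1 := Nat.find_spec hex
    have h2 : Nat.find hex ≠ 0 := by
      intro h0
      rw [h0, derivedSeries_zero] at h1
      exact (top_ne_bot : (⊤ : Subgroup G) ≠ ⊥) h1
    obtain ⟨m, hm⟩ := Nat.exists_eq_succ_of_ne_zero h2
    refine ⟨derivedSeries G m, derivedSeries_normal G m, ?_, ?_⟩
    · exact Nat.find_min hex (by omega)
    · intro x hx y hy
      rw [hm, Nat.succ_eq_add_one, derivedSeries_succ] at h1
      have h3 : ⁅x, y⁆ ∈ (⊥ : Subgroup G) := by
        rw [← h1]; exact Subgroup.commutator_mem_commutator hx hy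
      rw [Subgroup.mem_bot] at h3
      exact commutatorElement_eq_one_iff_mul_comm.mp h3
  have hcard : Nat.card D ≠ 1 := by
    intro h; exact hD0 (Subgroup.card_eq_one.mp h)
  obtain ⟨q, hq, hqd⟩ := Nat.exists_prime_and_dvd hcard
  have : Fact q.Prime := ⟨hq⟩
  let M : Subgroup G :=
    { carrier := {x | x ∈ D ∧ ∃ k : ℕ, x ^ (q ^ k) = 1}
      one_mem' := ⟨D.one_mem, 0, by simp⟩
      mul_mem' := by
        rintro x y ⟨hx, k, hk⟩ ⟨hy, l, hl⟩
        refine ⟨D.mul_mem hx hy, k + l, ?_⟩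
        have hc : Commute x y := hDab x hx y hy
        rw [hc.mul_pow, pow_add, pow_mul, hk, one_pow, one_mul, mul_comm, pow_mul, hl, one_pow]
      inv_mem' := by
        rintro x ⟨hx, k, hk⟩
        exact ⟨D.inv_mem hx, k, by rw [inv_pow, hk, inv_one]⟩ }
  have hMmem : ∀ x, x ∈ M ↔ x ∈ D ∧ ∃ k : ℕ, x ^ (q ^ k) = 1 := fun x => Iff.rfl
  have hMn : M.Normal := by
    refine ⟨fun x hx g => ?_⟩
    obtain ⟨h1, k, hk⟩ := (hMmem x).mp hx
    refine (hMmem _).mpr ⟨hDn.conj_mem x h1 g, k, ?_⟩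
    rw [conj_pow, hk]; simp
  have hMq : IsPGroup q M := by
    intro x
    obtain ⟨_, k, hk⟩ := (hMmem x.1).mp x.2
    exact ⟨k, Subtype.ext (by simpa using hk)⟩
  have hM0 : M ≠ ⊥ := by
    obtain ⟨x, hx⟩ := exists_prime_orderOf_dvd_card' q hqd
    intro h
    have h1 : (x : G) ∈ M := by
      refine (hMmem _).mpr ⟨x.2, 1, ?_⟩
      have h2 : x ^ q = 1 := by rw [← hx]; exact pow_orderOf_eq_one x
      have h3 := congrArg (fun y : D => (y : G)) h2
      simpa using h3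
    rw [h, Subgroup.mem_bot] at h1
    have h4 : x = 1 := Subtype.ext h1
    rw [h4, orderOf_one] at hx
    exact hq.one_lt.ne hx
  exact ⟨q, M, hq, hMn, hMq, hM0, fun x hx y hy => hDab x hx.1 y hy.1⟩

end Pool.Agent.Helper17.SV
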